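import Mathlib

set_option autoImplicit false

open Matrix

namespace Pool.Agent.Results.MP_a20134_al.TwoSensesDiffer

/-- `A` is completely positive: `A = C Cᵀ` for an entrywise nonnegative matrix `C` with any number
of columns. -/
def IsCP (A : Matrix (Fin 5) (Fin 5) ℝ) : Prop :=
  ∃ m : ℕ, ∃ C : Matrix (Fin 5) (Fin m) ℝ, (∀ i j, 0 ≤ C i j) ∧ A = C * Cᵀ

/-- `A` is on the boundary of the completely positive cone in the space of symmetric matrices: it is
in the cone, and there are symmetric matrices arbitrarily close to `A` which are not. -/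
def OnBoundary (A : Matrix (Fin 5) (Fin 5) ℝ) : Prop :=
  IsCP A ∧ ∀ ε : ℝ, 0 < ε → ∃ S : Matrix (Fin 5) (Fin 5) ℝ, Sᵀ = S ∧
    (∀ i j, |S i j - A i j| < ε) ∧ ¬ IsCP S

/-- `A` is in the interior of the doubly nonnegative cone: it is positive definite and all entries
are positive. -/
def InteriorDNN (A : Matrix (Fin 5) (Fin 5) ℝ) : Prop :=
  A.PosDef ∧ ∀ i j, 0 < A i j

/-- All entries of `A` are rational. For a factor `B` this is rationality in sense (ii). -/
def IsRational (A : Matrix (Fin 5) (Fin 5) ℝ) : Prop :=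
  ∀ i j, ∃ q : ℚ, A i j = (q : ℝ)

/-- `B` is a square factorization of `A`. -/
def IsSquareFactorization (A B : Matrix (Fin 5) (Fin 5) ℝ) : Prop :=
  (∀ i j, 0 ≤ B i j) ∧ A = B * Bᵀ

/-- `B` is rational in sense (i): for every column `b` there are a rational `q ≥ 0` and a rational
vector `v` with `b bᵀ = q v vᵀ`. -/
def RationalColumns (B : Matrix (Fin 5) (Fin 5) ℝ) : Prop :=
  ∀ j, ∃ (q : ℚ) (v : Fin 5 → ℚ), 0 ≤ q ∧ ∀ i l, B i j * B l j = (q : ℝ) * ((v i : ℝ) * (v l : ℝ))

theorem IsCP.add {A A' : Matrix (Fin 5) (Fin 5) ℝ} (h : IsCP A) (h' : IsCP A') :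
    IsCP (A + A') := by
  obtain ⟨m, C, hC, rfl⟩ := h
  obtain ⟨n, D, hD, rfl⟩ := h'
  refine ⟨m + n, Matrix.of fun i => Fin.addCases (C i) (D i), ?_, ?_⟩
  · intro i j
    refine Fin.addCases (fun k => ?_) (fun k => ?_) j
    · simpa using hC i k
    · simpa using hD i k
  · ext i l
    simp [Matrix.mul_apply, Fin.sum_univ_add]

theorem IsCP.smul {A : Matrix (Fin 5) (Fin 5) ℝ} (h : IsCP A) {t : ℝ} (ht : 0 ≤ t) :
    IsCP (t • A) := by
  obtain ⟨m, C, hC, rfl⟩ := h
  refine ⟨m, √t • C, fun i j => mul_nonneg (Real.sqrt_nonneg t) (hC i j), ?_⟩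
  rw [Matrix.transpose_smul, Matrix.smul_mul, Matrix.mul_smul, smul_smul,
    Real.mul_self_sqrt ht]

/-- the matrix `A + b bᵀ`, `b` the column `j` of `B` -/
def bump (A B : Matrix (Fin 5) (Fin 5) ℝ) (j : Fin 5) : Matrix (Fin 5) (Fin 5) ℝ :=
  Matrix.of fun i l => A i l + B i j * B l j

/-- the scalings -/
noncomputable def dg (t : ℝ) (j : Fin 5) : Fin 5 → ℝ := fun k => if k = j then t else 1

theorem mul_diag_apply (B : Matrix (Fin 5) (Fin 5) ℝ) (d : Fin 5 → ℝ) (i l : Fin 5) :
    (B * Matrix.diagonal d * Bᵀ) i l = ∑ k, B i k * d k * B l k := by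
  rw [Matrix.mul_apply]
  refine Finset.sum_congr rfl fun k _ => ?_
  rw [Matrix.mul_diagonal, Matrix.transpose_apply]

theorem bump_eq (B : Matrix (Fin 5) (Fin 5) ℝ) (j : Fin 5) :
    bump (B * Bᵀ) B j = B * Matrix.diagonal (dg 2 j) * Bᵀ := by
  ext i l
  rw [mul_diag_apply]
  simp only [bump, Matrix.of_apply, Matrix.mul_apply, Matrix.transpose_apply]
  have h1 : ∀ k, B i k * dg 2 j k * B l k =
      B i k * B l k + if k = j then B i k * B l k else 0 := by
    intro k
    unfold dg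
    split_ifs <;> ring
  simp only [h1, Finset.sum_add_distrib, Finset.sum_ite_eq', Finset.mem_univ, if_true]

theorem bump_factor (B : Matrix (Fin 5) (Fin 5) ℝ) (j : Fin 5) :
    bump (B * Bᵀ) B j = (B * Matrix.diagonal (dg (√2) j)) * (B * Matrix.diagonal (dg (√2) j))ᵀ := by
  rw [bump_eq, Matrix.transpose_mul, Matrix.diagonal_transpose, Matrix.mul_assoc, Matrix.mul_assoc,
    ← Matrix.mul_assoc (Matrix.diagonal (dg (√2) j)), Matrix.diagonal_mul_diagonal]
  congr 3
  ext k
  simp only [dg]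
  split_ifs
  · rw [Real.mul_self_sqrt (by norm_num)]
  · rw [mul_one]

theorem cp_rank_one (B : Matrix (Fin 5) (Fin 5) ℝ) (hB : ∀ i j, 0 ≤ B i j) (j : Fin 5) (t : ℝ)
    (ht : 0 ≤ t) : IsCP (B * Matrix.diagonal (dg t j) * Bᵀ) := by
  refine ⟨5, B * Matrix.diagonal (dg (√t) j), ?_, ?_⟩
  · intro i k
    rw [Matrix.mul_diagonal]
    refine mul_nonneg (hB i k) ?_
    unfold dg
    split_ifs
    · exact Real.sqrt_nonneg t
    · exact zero_le_one
  · rw [Matrix.transpose_mul, Matrix.diagonal_transpose, Matrix.mul_assoc, Matrix.mul_assoc,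
      ← Matrix.mul_assoc (Matrix.diagonal (dg (√t) j)), Matrix.diagonal_mul_diagonal]
    congr 3
    ext k
    simp only [dg]
    split_ifs
    · rw [Real.mul_self_sqrt ht]
    · rw [mul_one]

theorem det_bump (B : Matrix (Fin 5) (Fin 5) ℝ) (j : Fin 5) :
    (bump (B * Bᵀ) B j).det = 2 * B.det ^ 2 := by
  rw [bump_eq, Matrix.det_mul, Matrix.det_mul, Matrix.det_transpose, Matrix.det_diagonal]
  have h1 : ∏ k, dg 2 j k = 2 := by
    simp only [dg, Finset.prod_ite_eq', Finset.mem_univ, if_true]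
  rw [h1]
  ring

theorem rational_det {B : Matrix (Fin 5) (Fin 5) ℝ} (hB : IsRational B) :
    ∃ q : ℚ, B.det = (q : ℝ) := by
  choose f hf using hB
  refine ⟨(Matrix.of f).det, ?_⟩
  have h1 : B = (Matrix.of f).map (algebraMap ℚ ℝ) := by
    ext i j
    rw [hf]
    rfl
  rw [h1]
  have h2 := (RingHom.map_det (algebraMap ℚ ℝ) (Matrix.of f))
  rw [RingHom.mapMatrix_apply] at h2
  rw [← h2]
  rfl

/-- the general step -/
theorem step (A B : Matrix (Fin 5) (Fin 5) ℝ) (hd : InteriorDNN A) (hb : OnBoundary A)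
    (hB : IsSquareFactorization A B) (hr : IsRational B) (j : Fin 5) :
    IsRational (bump A B j) ∧ InteriorDNN (bump A B j) ∧ OnBoundary (bump A B j) ∧
      (∃ C, IsSquareFactorization (bump A B j) C ∧ RationalColumns C) ∧
      ∀ C : Matrix (Fin 5) (Fin 5) ℝ, bump A B j = C * Cᵀ → ¬ IsRational C := by
  obtain ⟨hB0, hAB⟩ := hB
  have hdet0 : B.det ≠ 0 := by
    intro h
    have h1 := hd.1.det_pos
    rw [hAB, Matrix.det_mul, h, zero_mul] at h1
    exact lt_irrefl _ h1
  have hN0 : ∀ i k, 0 ≤ (B * Matrix.diagonal (dg (√2) j)) i k := by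
    intro i k
    rw [Matrix.mul_diagonal]
    refine mul_nonneg (hB0 i k) ?_
    unfold dg
    split_ifs
    · exact Real.sqrt_nonneg 2
    · exact zero_le_one
  have hfac : bump A B j = (B * Matrix.diagonal (dg (√2) j)) *
      (B * Matrix.diagonal (dg (√2) j))ᵀ := by
    rw [hAB]
    exact bump_factor B j
  refine ⟨?_, ⟨?_, ?_⟩, ⟨⟨5, _, hN0, hfac⟩, ?_⟩, ⟨_, ⟨hN0, hfac⟩, ?_⟩, ?_⟩
  · intro i l
    choose f hf using hr
    refine ⟨∑ k, f i k * f l k + f i j * f l j, ?_⟩
    simp only [bump, Matrix.of_apply]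
    rw [hAB]
    simp only [Matrix.mul_apply, Matrix.transpose_apply, hf]
    push_cast
    rfl
  · have h1 : bump A B j = A + Matrix.vecMulVec (fun i => B i j) (star fun i => B i j) := by
      ext i l
      simp [bump, Matrix.vecMulVec_apply]
    rw [h1]
    exact hd.1.add_posSemidef (Matrix.posSemidef_vecMulVec_self_star _)
  · intro i l
    exact add_pos_of_pos_of_nonneg (hd.2 i l) (mul_nonneg (hB0 i j) (hB0 l j))
  · intro ε hε
    by_contra hcon
    push Not at hcon
    obtain ⟨S, hS1, hS2, hS3⟩ := hb.2 (ε / 2) (by positivity)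
    apply hS3
    have hA0 : IsCP (B * Matrix.diagonal (dg 0 j) * Bᵀ) := cp_rank_one B hB0 j 0 le_rfl
    have h1 : IsCP ((2 : ℝ) • S - B * Matrix.diagonal (dg 0 j) * Bᵀ) := by
      apply hcon
      · rw [Matrix.transpose_sub, Matrix.transpose_smul, hS1, Matrix.transpose_mul,
          Matrix.transpose_mul, Matrix.transpose_transpose, Matrix.diagonal_transpose,
          Matrix.mul_assoc]
      · intro i l
        have h2 : (2 : ℝ) • A - B * Matrix.diagonal (dg 0 j) * Bᵀ = bump A B j := by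
          rw [hAB, bump_eq]
          have h3 : (2 : ℝ) • (B * Bᵀ) = B * Matrix.diagonal (fun _ => (2 : ℝ)) * Bᵀ := by
            ext i l
            rw [mul_diag_apply, Matrix.smul_apply, Matrix.mul_apply, smul_eq_mul, Finset.mul_sum]
            refine Finset.sum_congr rfl fun k _ => ?_
            rw [Matrix.transpose_apply]
            ring
          rw [h3, ← Matrix.sub_mul, ← Matrix.mul_sub, Matrix.diagonal_sub]
          congr 3
          ext k
          simp only [dg]
          split_ifs <;> norm_num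
        rw [← h2]
        have h4 : ((2 : ℝ) • S - B * Matrix.diagonal (dg 0 j) * Bᵀ) i l -
            ((2 : ℝ) • A - B * Matrix.diagonal (dg 0 j) * Bᵀ) i l = 2 * (S i l - A i l) := by
          simp only [Matrix.sub_apply, Matrix.smul_apply, smul_eq_mul]
          ring
        rw [h4, abs_mul, abs_of_pos (by norm_num : (0 : ℝ) < 2)]
        have := hS2 i l
        linarith
    have h5 := (h1.add hA0).smul (t := 1 / 2) (by norm_num)
    rw [sub_add_cancel, smul_smul] at h5
    norm_num at h5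
    exact h5
  · intro k
    choose f hf using hr
    by_cases h : k = j
    · refine ⟨2, fun i => f i k, by norm_num, fun i l => ?_⟩
      rw [Matrix.mul_diagonal, Matrix.mul_diagonal, hf, hf]
      simp only [dg, if_pos h]
      have := Real.mul_self_sqrt (show (0 : ℝ) ≤ 2 by norm_num)
      push_cast
      linear_combination (f i k : ℝ) * (f l k : ℝ) * this
    · refine ⟨1, fun i => f i k, by norm_num, fun i l => ?_⟩
      rw [Matrix.mul_diagonal, Matrix.mul_diagonal, hf, hf]
      simp only [dg, if_neg h]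
      push_cast
      ring
  · intro C hC hCr
    obtain ⟨p, hp⟩ := rational_det hCr
    obtain ⟨q, hq⟩ := rational_det hr
    have h1 := congrArg Matrix.det hC
    rw [hAB, det_bump, Matrix.det_mul, Matrix.det_transpose, hp, hq] at h1
    have hq0 : (q : ℝ) ≠ 0 := by rwa [← hq]
    have h2 : ((p / q : ℚ) : ℝ) ^ 2 = 2 := by
      push_cast
      rw [div_pow]
      field_simp
      linarith
    have h3 := irrational_sqrt_two
    apply h3
    refine ⟨|p / q|, ?_⟩
    rw [← h2, Real.sqrt_sq_eq_abs]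
    push_cast
    rfl

/-- the Horn form is copositive. -/
lemma horn_nonneg (a b c d e : ℝ) (ha : 0 ≤ a) (hb : 0 ≤ b) (hc : 0 ≤ c) (hd : 0 ≤ d)
    (he : 0 ≤ e) :
    0 ≤ a * a + b * b + c * c + d * d + e * e
      - 2 * (a * b + b * c + c * d + d * e + e * a)
      + 2 * (a * c + b * d + c * e + d * a + e * b) := by
  rcases le_total d e with h | h
  · have h1 := mul_nonneg hb hd
    have h2 := mul_nonneg hc (sub_nonneg.2 h)
    nlinarith [sq_nonneg (a - b + c + d - e)]
  · have h1 := mul_nonneg hb he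
    have h2 := mul_nonneg ha (sub_nonneg.2 h)
    nlinarith [sq_nonneg (a - b + c - d + e)]

/-- pairing with the Horn matrix. -/
noncomputable def hornPair (S : Matrix (Fin 5) (Fin 5) ℝ) : ℝ :=
  S 0 0 + S 1 1 + S 2 2 + S 3 3 + S 4 4
    - 2 * (S 0 1 + S 1 2 + S 2 3 + S 3 4 + S 4 0)
    + 2 * (S 0 2 + S 1 3 + S 2 4 + S 3 0 + S 4 1)

lemma hornPair_nonneg {m : ℕ} (C : Matrix (Fin 5) (Fin m) ℝ) (hC : ∀ i j, 0 ≤ C i j) :
    0 ≤ hornPair (C * Cᵀ) := by
  have : hornPair (C * Cᵀ) = ∑ k : Fin m,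
      (C 0 k * C 0 k + C 1 k * C 1 k + C 2 k * C 2 k + C 3 k * C 3 k + C 4 k * C 4 k
      - 2 * (C 0 k * C 1 k + C 1 k * C 2 k + C 2 k * C 3 k + C 3 k * C 4 k + C 4 k * C 0 k)
      + 2 * (C 0 k * C 2 k + C 1 k * C 3 k + C 2 k * C 4 k + C 3 k * C 0 k + C 4 k * C 1 k)) := by
    simp only [hornPair, Matrix.mul_apply, Matrix.transpose_apply, Finset.sum_add_distrib,
      Finset.sum_sub_distrib, ← Finset.mul_sum]
  rw [this]
  exact Finset.sum_nonneg fun k _ =>
    horn_nonneg _ _ _ _ _ (hC 0 k) (hC 1 k) (hC 2 k) (hC 3 k) (hC 4 k)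

/-- the circulant matrix whose columns are the cyclic shifts of `(1, 2, 1, 0, 0)` -/
def B0 : Matrix (Fin 5) (Fin 5) ℝ :=
  !![1, 0, 0, 1, 2; 2, 1, 0, 0, 1; 1, 2, 1, 0, 0; 0, 1, 2, 1, 0; 0, 0, 1, 2, 1]

/-- its product with its transpose -/
def A0 : Matrix (Fin 5) (Fin 5) ℝ :=
  !![6, 4, 1, 1, 4; 4, 6, 4, 1, 1; 1, 4, 6, 4, 1; 1, 1, 4, 6, 4; 4, 1, 1, 4, 6]

theorem A0_eq : A0 = B0 * B0ᵀ := by
  ext i j
  fin_cases i <;> fin_cases j <;>
    simp [A0, B0, Matrix.mul_apply, Fin.sum_univ_five] <;> norm_num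

theorem B0_nonneg : ∀ i j, 0 ≤ B0 i j := by
  intro i j
  fin_cases i <;> fin_cases j <;> simp [B0]

theorem B0_rational : IsRational B0 := by
  intro i j
  refine ⟨(!![1, 0, 0, 1, 2; 2, 1, 0, 0, 1; 1, 2, 1, 0, 0; 0, 1, 2, 1, 0; 0, 0, 1, 2, 1] :
    Matrix (Fin 5) (Fin 5) ℚ) i j, ?_⟩
  fin_cases i <;> fin_cases j <;> simp [B0]

theorem A0_interior : InteriorDNN A0 := by
  constructor
  · rw [Matrix.posDef_iff_dotProduct_mulVec]
    constructor
    · ext i j
      fin_cases i <;> fin_cases j <;> simp [A0, Matrix.conjTranspose_apply]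
    · intro x hx
      have hexp : star x ⬝ᵥ (A0 *ᵥ x) =
          (x 0 + 2 * x 1 + x 2) ^ 2 + (x 1 + 2 * x 2 + x 3) ^ 2 + (x 2 + 2 * x 3 + x 4) ^ 2 +
            (x 3 + 2 * x 4 + x 0) ^ 2 + (x 4 + 2 * x 0 + x 1) ^ 2 := by
        simp [A0, Matrix.mulVec, dotProduct, Fin.sum_univ_five]
        ring
      rw [hexp]
      by_contra hcon
      push Not at hcon
      apply hx
      have s1 := sq_nonneg (x 0 + 2 * x 1 + x 2)
      have s2 := sq_nonneg (x 1 + 2 * x 2 + x 3)
      have s3 := sq_nonneg (x 2 + 2 * x 3 + x 4)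
      have s4 := sq_nonneg (x 3 + 2 * x 4 + x 0)
      have s5 := sq_nonneg (x 4 + 2 * x 0 + x 1)
      have e1 : x 0 + 2 * x 1 + x 2 = 0 := pow_eq_zero_iff (two_ne_zero) |>.1 (by linarith)
      have e2 : x 1 + 2 * x 2 + x 3 = 0 := pow_eq_zero_iff (two_ne_zero) |>.1 (by linarith)
      have e3 : x 2 + 2 * x 3 + x 4 = 0 := pow_eq_zero_iff (two_ne_zero) |>.1 (by linarith)
      have e4 : x 3 + 2 * x 4 + x 0 = 0 := pow_eq_zero_iff (two_ne_zero) |>.1 (by linarith)
      have e5 : x 4 + 2 * x 0 + x 1 = 0 := pow_eq_zero_iff (two_ne_zero) |>.1 (by linarith)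
      have f0 : x 0 = 0 := by linarith
      have f1 : x 1 = 0 := by linarith
      have f2 : x 2 = 0 := by linarith
      have f3 : x 3 = 0 := by linarith
      have f4 : x 4 = 0 := by linarith
      ext i
      fin_cases i <;> simp [f0, f1, f2, f3, f4]
  · intro i j
    fin_cases i <;> fin_cases j <;> simp [A0]

theorem A0_boundary : OnBoundary A0 := by
  refine ⟨⟨5, B0, B0_nonneg, A0_eq⟩, ?_⟩
  intro ε hε
  refine ⟨A0 - (ε / 2) • (1 : Matrix (Fin 5) (Fin 5) ℝ), ?_, ?_, ?_⟩
  · ext i j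
    fin_cases i <;> fin_cases j <;> simp [A0]
  · intro i j
    have hh : (A0 - (ε / 2) • (1 : Matrix (Fin 5) (Fin 5) ℝ)) i j - A0 i j
        = - ((ε / 2) * (1 : Matrix (Fin 5) (Fin 5) ℝ) i j) := by
      simp [Matrix.sub_apply, Matrix.smul_apply]
    rw [hh, abs_neg, Matrix.one_apply]
    split_ifs
    · rw [abs_of_nonneg (by linarith)]; linarith
    · simpa using hε
  · rintro ⟨m, C, hC, hS⟩
    have h0 := hornPair_nonneg C hC
    rw [← hS] at h0
    have h1 : hornPair (A0 - (ε / 2) • (1 : Matrix (Fin 5) (Fin 5) ℝ)) = - (5 * (ε / 2)) := by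
      simp [hornPair, A0, Matrix.sub_apply, Matrix.smul_apply, Matrix.one_apply]
      ring
    rw [h1] at h0
    linarith

/-- **Q2 has a negative answer, and the two senses of rationality differ.**

(1) There is a rational matrix `A` in `∂CP₅ ∩ DNN₅°` which has a square factorization that is rational
in sense (i), but no square factorization that is rational in sense (ii); in fact `A ≠ C Cᵀ` for all
`5 × 5` matrices `C` with rational entries, nonnegative or not.

(2) There is a rational matrix `A` in `∂CP₅ ∩ DNN₅°` with a square factorization which is rational in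
sense (ii). Next to each such `A` there are five matrices as in (1): if `A ∈ ∂CP₅ ∩ DNN₅°` has a square
factorization `B` with rational entries, then for each column `b` of `B` the matrix `A + b bᵀ` is a
rational matrix in `∂CP₅ ∩ DNN₅°`, it has a square factorization which is rational in sense (i), and
none with rational entries. -/
theorem result :
    (∃ A : Matrix (Fin 5) (Fin 5) ℝ, IsRational A ∧ InteriorDNN A ∧ OnBoundary A ∧
      (∃ B, IsSquareFactorization A B ∧ RationalColumns B) ∧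
      ∀ C : Matrix (Fin 5) (Fin 5) ℝ, A = C * Cᵀ → ¬ IsRational C) ∧
    (∃ A B : Matrix (Fin 5) (Fin 5) ℝ, InteriorDNN A ∧ OnBoundary A ∧ IsSquareFactorization A B ∧
      IsRational B) ∧
    ∀ A B : Matrix (Fin 5) (Fin 5) ℝ, InteriorDNN A → OnBoundary A → IsSquareFactorization A B →
      IsRational B → ∀ j : Fin 5,
        IsRational (bump A B j) ∧ InteriorDNN (bump A B j) ∧ OnBoundary (bump A B j) ∧
        (∃ C, IsSquareFactorization (bump A B j) C ∧ RationalColumns C) ∧
        ∀ C : Matrix (Fin 5) (Fin 5) ℝ, bump A B j = C * Cᵀ → ¬ IsRational C :=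
  ⟨⟨bump A0 B0 0, step A0 B0 A0_interior A0_boundary ⟨B0_nonneg, A0_eq⟩ B0_rational 0⟩,
    ⟨A0, B0, A0_interior, A0_boundary, ⟨B0_nonneg, A0_eq⟩, B0_rational⟩,
    fun A B hd hb hB hr j => step A B hd hb hB hr j⟩

end Pool.Agent.Results.MP_a20134_al.TwoSensesDiffer
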